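import Mathlib
import Pool.Agent.N990.RU.Stm

/-!
# Project RU (helper990), part FEL (helper572, adapted from the RT version of helper186)
-/

set_option autoImplicit false

open MeasureTheory
open Pool.Agent.N988.EA

namespace Pool.Agent.N572.RU.FEL

open Pool.Agent.N990.RU

theorem t_fel (h1 : Pool.Agent.N990.RU.S_BAS) (h2 : Pool.Agent.N990.RU.S_GEO) :
    Pool.Agent.N990.RU.S_FEL := by
  intro p J n f hf
  obtain ⟨hact, ⟨C, hC⟩, ⟨hZ, hZ0⟩, -, hint, -⟩ := h1 n (rs p J n)
  obtain ⟨hcount, -, -, -, -, -, hrepl, -⟩ := h2 p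
  have hends : Continuous (ends p n) := by
    unfold ends
    fun_prop
  have helim : Continuous fun z : (VInf p → Ang) × (Vert 2 n → Ang) =>
      (Sum.elim (ends p n z.1) z.2 : Pt 2 n → Ang) := by
    refine continuous_pi (fun x => ?_)
    rcases x with t | y
    · show Continuous fun z : (VInf p → Ang) × (Vert 2 n → Ang) => ends p n z.1 t
      exact (continuous_apply t).comp (hends.comp continuous_fst)
    · show Continuous fun z : (VInf p → Ang) × (Vert 2 n → Ang) => z.2 y
      exact (continuous_apply y).comp continuous_snd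
  have hF : Continuous (Function.uncurry fun (ω : VInf p → Ang) (σ : Vert 2 n → Ang) =>
      f (repl p n ω σ) * Real.exp (act n (rs p J n) (Sum.elim (ends p n ω) σ))) := by
    refine Continuous.mul (hf.comp (hrepl n)) (Real.continuous_exp.comp (hact.comp helim))
  have hnum : Continuous fun ω : VInf p → Ang => ∫ σ in Set.univ,
      f (repl p n ω σ) * Real.exp (act n (rs p J n) (Sum.elim (ends p n ω) σ)) ∂(refm n) :=
    continuous_parametric_integral_of_continuous hF isCompact_univ
  have he : GG p J n f = fun ω => (∫ σ in Set.univ,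
      f (repl p n ω σ) * Real.exp (act n (rs p J n) (Sum.elim (ends p n ω) σ)) ∂(refm n)) /
        Zf n (rs p J n) (ends p n ω) := by
    funext ω
    unfold GG
    rw [hint, setIntegral_univ]
  rw [he]
  exact hnum.div (hZ.comp hends) (fun ω => (hZ0 _).ne')

end Pool.Agent.N572.RU.FEL
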